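import Pool.Agent.W472.DPExist

/-!
Rational points on del Pezzo manifolds of degree one, in every dimension.
-/

set_option autoImplicit false

open MvPolynomial Pool.Agent.W472.DPDefs

namespace Pool.Agent.Results.MP_b62148_ag.DelPezzoDegreeOne

/-- Let `X : y² = x³ + a₂(t) x² + a₄(t) x + a₆(t)` be a hypersurface of degree six in the weighted
projective space `ℙ(1, …, 1, 2, 3)` with `m` variables `t` of weight one.
(1) If `K` is a number field and the ramification divisor `y = 0` of `X` has a `K`-rational
osculating point, then `X(K)` is Zariski dense in `X`.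
(2) If `m ≥ 2` and `X` is smooth (so `X` is a del Pezzo manifold of degree one and dimension `m`)
over a number field `k`, then `X` is potentially dense. -/
theorem result :
    (∀ (K : Type) [Field K] [NumberField K] (m : ℕ) (a2 a4 a6 : MvPolynomial (Fin m) K),
      AreForms a2 a4 a6 → HasOsculatingPoint a2 a4 a6 → DensePoints a2 a4 a6) ∧
    (∀ (k : Type) [Field k] [NumberField k] (m : ℕ) (a2 a4 a6 : MvPolynomial (Fin m) k),
      2 ≤ m → AreForms a2 a4 a6 → IsSmooth a2 a4 a6 →
        ∃ (L : Type) (_ : Field L) (_ : NumberField L) (_ : Algebra k L),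
          DensePoints (MvPolynomial.map (algebraMap k L) a2)
            (MvPolynomial.map (algebraMap k L) a4) (MvPolynomial.map (algebraMap k L) a6)) :=
  ⟨fun K _ _ m a2 a4 a6 hF h => Pool.Agent.W472.DP.part1 K m a2 a4 a6 hF h,
    fun k _ _ m a2 a4 a6 hm hF hsm => Pool.Agent.W472.DP.part2 k m hm a2 a4 a6 hF hsm⟩

end Pool.Agent.Results.MP_b62148_ag.DelPezzoDegreeOne
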